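import Mathlib
import Pool.Prelude.Def_F_c31e40fa
import Pool.Agent.Y298.CD.Fin

set_option autoImplicit false

open MeasureTheory Filter Metric

namespace Pool.Agent.Results.MP_af9036_an.ColletEckmannAllDegrees

/-- The polynomial `z ^ d + c`. -/
def f (d : ℕ) (c : ℂ) : ℂ → ℂ := fun z => z ^ d + c

/-- The Collet-Eckmann condition with explicit constants: `c` lies in the Multibrot set and the
derivatives of the iterates of `f d c` at the critical value `c` grow at least like `lam ^ n / C₁`. -/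
def ColletEckmann (d : ℕ) (C₁ lam : ℝ) (c : ℂ) : Prop :=
  c ∈ N62a1eb23.multibrotSet d ∧ ∀ n : ℕ, lam ^ n ≤ C₁ * ‖deriv ((f d c)^[n]) c‖

/-- The parameter `c` is near to superattracting parameters and to escaping parameters, every disk in
the Multibrot set centred at `c` is small, and the filled Julia set of `f d c` is small, in terms of
the distance between `c` and `c₀`. -/
def Close (d : ℕ) (C σ : ℝ) (c₀ c : ℂ) : Prop :=
  (∃ c' : ℂ, ‖c' - c‖ ≤ C * ‖c - c₀‖ ^ σ ∧ ∃ p : ℕ, 1 ≤ p ∧ (f d c')^[p] 0 = 0 ∧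
    N62a1eb23.IsAttractingCycle (f d c') p 0) ∧
  (∃ c' : ℂ, ‖c' - c‖ ≤ C * ‖c - c₀‖ ^ σ ∧ c' ∉ N62a1eb23.multibrotSet d) ∧
  (∀ γ : ℂ → ℂ, DifferentiableOn ℂ γ (ball 0 1) →
    (∀ u ∈ ball (0 : ℂ) 1, γ u ∈ N62a1eb23.multibrotSet d) → γ 0 = c →
    ‖deriv γ 0‖ ≤ C * ‖c - c₀‖ ^ σ) ∧
  volume {z : ℂ | ¬ Tendsto (fun k => (f d c)^[k] z) atTop (Bornology.cobounded ℂ)} ≤
    ENNReal.ofReal (C * ‖c - c₀‖ ^ (2 * σ / d))

/-- Superlinear density of hyperbolicity at the Collet-Eckmann parameters of the Multibrot sets of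
degree at least three. -/
theorem result (d : ℕ) (hd : 3 ≤ d) :
    (∀ C₁ lam σ : ℝ, 1 ≤ C₁ → 1 < lam → 0 ≤ σ →
      σ * (1 - Real.log lam / (d * Real.log (2 * d))) < 1 →
      ∃ C : ℝ, 0 < C ∧ ∀ c₀ : ℂ, ColletEckmann d C₁ lam c₀ →
        ∀ c ∈ N62a1eb23.multibrotSet d, c ≠ c₀ → Close d C σ c₀ c) ∧
    (∀ C₁ lam C₂ β σ : ℝ, 1 ≤ C₁ → 1 < lam → 0 ≤ β → 0 ≤ σ → σ * (1 + β) < d / (d - 1) →
      ∃ C : ℝ, 0 < C ∧ ∀ c₀ : ℂ, ColletEckmann d C₁ lam c₀ →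
        (∀ n : ℕ, 1 ≤ C₂ * (‖(f d c₀)^[n] c₀‖ * ‖deriv ((f d c₀)^[n]) c₀‖ ^ β)) →
        ∀ c ∈ N62a1eb23.multibrotSet d, c ≠ c₀ → Close d C σ c₀ c) := by
  have hd2 : 2 ≤ d := by omega
  have hdR : (3 : ℝ) ≤ d := by exact_mod_cast hd
  have hd1 : 0 < (d : ℝ) - 1 := by linarith
  have hgen : ∀ C₁ lam C₂ β σ : ℝ, 1 ≤ C₁ → 1 < lam → 0 ≤ β → 0 ≤ σ →
      σ * (1 + β) < d / (d - 1) →
      ∃ C : ℝ, 0 < C ∧ ∀ c₀ : ℂ, ColletEckmann d C₁ lam c₀ →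
        (∀ n : ℕ, 1 ≤ C₂ * (‖(f d c₀)^[n] c₀‖ * ‖deriv ((f d c₀)^[n]) c₀‖ ^ β)) →
        ∀ c ∈ N62a1eb23.multibrotSet d, c ≠ c₀ → Close d C σ c₀ c := by
    intro C₁ lam C₂ β σ hC₁ hlam hβ hσ0 hσ
    by_cases hC₂ : 0 < C₂
    · set t : ℝ := σ * (d - 1) / d with ht
      have ht0 : 0 ≤ t := by positivity
      have ht1 : t * (1 + β) < 1 := by
        rw [lt_div_iff₀ hd1] at hσ
        rw [ht, div_mul_eq_mul_div, div_lt_one (by positivity)]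
        linarith
      have e1 : 2 * t / ((d : ℝ) - 1) = 2 * σ / d := by
        rw [ht]
        field_simp
      have e2 : d * t / ((d : ℝ) - 1) = σ := by
        rw [ht]
        field_simp
      obtain ⟨C, hC, H⟩ := Pool.Agent.Y298.SH.CD.upper hd2 C₁ lam hC₂ hβ ht0 ht1
      obtain ⟨C', hC', H'⟩ := Pool.Agent.Y298.SH.CD.upper_uniform hd2 C₁ lam hC₂ hβ ht0 ht1
      rw [e1, e2] at H H'
      refine ⟨C + C', by positivity, fun c₀ h₀ hrec c hc hcc => ?_⟩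
      have h₁ := Pool.Agent.Y298.SH.CD.cep_of_mem hd2 hC₁ hlam h₀.1 h₀.2
      obtain ⟨h1, ⟨c1, h2, h2'⟩, ⟨c2, h3, h3'⟩, -⟩ := H c₀ h₁ hrec c hc hcc
      obtain ⟨-, h4⟩ := H' c₀ h₁ hrec c hc hcc
      have hp : 0 ≤ ‖c - c₀‖ ^ σ := by positivity
      have hp' : 0 ≤ ‖c - c₀‖ ^ (2 * σ / d) := by positivity
      have hA : C * ‖c - c₀‖ ^ σ ≤ (C + C') * ‖c - c₀‖ ^ σ :=
        mul_le_mul_of_nonneg_right (by linarith) hp
      have hB : C' * ‖c - c₀‖ ^ σ ≤ (C + C') * ‖c - c₀‖ ^ σ :=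
        mul_le_mul_of_nonneg_right (by linarith) hp
      have hA' : C * ‖c - c₀‖ ^ (2 * σ / d) ≤ (C + C') * ‖c - c₀‖ ^ (2 * σ / d) :=
        mul_le_mul_of_nonneg_right (by linarith) hp'
      exact ⟨⟨c1, h2.trans hA, h2'⟩, ⟨c2, h3.trans hA, h3'⟩,
        fun γ g1 g2 g3 => (h4 γ g1 g2 g3).trans hB, h1.trans (ENNReal.ofReal_le_ofReal hA')⟩
    · refine ⟨1, one_pos, fun c₀ h₀ hrec c hc hcc => ?_⟩
      exfalso
      have h1 := hrec 0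
      have h2 : 0 ≤ ‖(f d c₀)^[0] c₀‖ * ‖deriv ((f d c₀)^[0]) c₀‖ ^ β := by positivity
      nlinarith [not_lt.mp hC₂]
  refine ⟨?_, hgen⟩
  intro C₁ lam σ hC₁ hlam hσ0 hσ
  have hl4 : 0 < Real.log (2 * d) := Real.log_pos (by linarith)
  by_cases h4 : lam ≤ 2 * d
  · have h5 : Real.log lam ≤ Real.log (2 * d) := Real.log_le_log (by linarith) h4
    have h6 : 0 ≤ 1 - Real.log lam / Real.log (2 * d) := by
      rw [sub_nonneg, div_le_one hl4]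
      exact h5
    obtain ⟨C, hC, H⟩ := hgen C₁ lam ((d * C₁) ^ (((d : ℝ) - 1)⁻¹))
      ((1 - Real.log lam / Real.log (2 * d)) / ((d : ℝ) - 1)) σ hC₁ hlam (by positivity) hσ0 (by
      have h7 : 1 + (1 - Real.log lam / Real.log (2 * d)) / ((d : ℝ) - 1) =
          (1 - Real.log lam / (d * Real.log (2 * d))) * (d / (d - 1)) := by
        field_simp
        ring
      rw [h7, ← mul_assoc]
      have h8 : 0 < (d : ℝ) / (d - 1) := by positivity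
      calc σ * (1 - Real.log lam / (d * Real.log (2 * d))) * (d / (d - 1)) <
            1 * ((d : ℝ) / (d - 1)) := by gcongr
        _ = _ := one_mul _)
    refine ⟨C, hC, fun c₀ h₀ c hc hcc => H c₀ h₀ ?_ c hc hcc⟩
    exact (Pool.Agent.Y298.SH.CD.cep_of_mem hd2 hC₁ hlam h₀.1 h₀.2).recB
  · refine ⟨1, one_pos, fun c₀ h₀ c hc hcc => ?_⟩
    exact absurd (Pool.Agent.Y298.SH.CD.cep_of_mem hd2 hC₁ hlam h₀.1 h₀.2).lam_le h4

end Pool.Agent.Results.MP_af9036_an.ColletEckmannAllDegrees
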